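import Pool.Agent.Helper48_LPY.Stmts
import Pool.Agent.Helper48_LPY.Basic

/-!
# LPY, module ADD: the conditions for connected fingerprints imply those for all fingerprints
-/

set_option autoImplicit false

namespace Pool.Agent.LPY.H54

open Pool.Agent.LAX Pool.Agent.LPY

section sets

variable {γ : Type} [Finite γ]

/-- cardinality of a disjoint union -/
theorem nc_union {S S1 S2 : Set γ} (h : S = S1 ∪ S2) (hd : Disjoint S1 S2) :
    S.ncard = S1.ncard + S2.ncard := by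
  rw [h]
  exact Set.ncard_union_eq hd (Set.toFinite _) (Set.toFinite _)

theorem nc_inter {X S S1 S2 : Set γ} (h : S = S1 ∪ S2) (hd : Disjoint S1 S2) :
    (X ∩ S).ncard = (X ∩ S1).ncard + (X ∩ S2).ncard := by
  apply nc_union
  · rw [h, Set.inter_union_distrib_left]
  · exact hd.mono Set.inter_subset_right Set.inter_subset_right

end sets

variable {V : Type} [Fintype V]

/-- the region of `T` -/
def Rg (Q : Set (V × V)) (T : Set (V × Lab)) : Set V := {v | ∃ t ∈ T, v ∈ rho Q t.1}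

omit [Fintype V] in
theorem SS_Rg {Q : Set (V × V)} {δ : Lab} {T : Set (V × Lab)} {p : V × Lab}
    (h : p ∈ SS Q δ T) : p.1 ∈ Rg Q T := by
  obtain ⟨t, ht, h1⟩ := h
  exact ⟨t, ht, Or.inl h1.1⟩

omit [Fintype V] in
theorem meet_Rg {Q : Set (V × V)} {δ : Lab} {T : Set (V × Lab)} {p : V × Lab}
    (h : (ow Q δ p ∩ SS Q δ T).Nonempty) : p.1 ∈ Rg Q T := by
  obtain ⟨p', h1, t, ht, h2⟩ := h
  exact ⟨t, ht, Or.inr ⟨p'.1, h1.1, h2.1⟩⟩

section two

variable {Q : Set (V × V)} {δ : Lab} {k0 : ℕ} {T1 T2 : Set (V × Lab)}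

omit [Fintype V] in
theorem leak_union (hno : Disjoint (Rg Q T1) (Rg Q T2)) {p : V × Lab} (hp : p.1 ∈ Rg Q T1) :
    leak Q δ (T1 ∪ T2) p = leak Q δ T1 p := by
  unfold leak
  rw [SS_union]
  congr 1
  ext p'
  simp only [Set.mem_sdiff, Set.mem_union, not_or]
  constructor
  · rintro ⟨h1, h2, _⟩
    exact ⟨h1, h2⟩
  · rintro ⟨h1, h2⟩
    exact ⟨h1, h2, fun h3 => Set.disjoint_left.mp hno hp (meet_Rg ⟨p', h1, h3⟩)⟩

theorem leak_union' (hno : Disjoint (Rg Q T1) (Rg Q T2)) {p : V × Lab} (hp : p.1 ∈ Rg Q T2) :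
    leak Q δ (T1 ∪ T2) p = leak Q δ T2 p := by
  rw [Set.union_comm]
  exact leak_union hno.symm hp

theorem AA_Rg (hδ : δ = 1 ∨ δ = -1) (hk : 1 ≤ k0) (hQ : ∀ x, k0 ≤ 2 * (out Q x).ncard)
    {T : Set (V × Lab)} {p : V × Lab} (h : p ∈ AA Q δ k0 T) : p.1 ∈ Rg Q T :=
  meet_Rg (meets_of_mem_AA hδ hk (hQ _) h)

omit [Fintype V] in
theorem Rg_union (T1 T2 : Set (V × Lab)) : Rg Q (T1 ∪ T2) = Rg Q T1 ∪ Rg Q T2 := by
  ext v
  constructor
  · rintro ⟨t, h | h, h1⟩
    · exact Or.inl ⟨t, h, h1⟩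
    · exact Or.inr ⟨t, h, h1⟩
  · rintro (⟨t, h, h1⟩ | ⟨t, h, h1⟩)
    · exact ⟨t, Or.inl h, h1⟩
    · exact ⟨t, Or.inr h, h1⟩

theorem AA_union (hδ : δ = 1 ∨ δ = -1) (hk : 1 ≤ k0) (hQ : ∀ x, k0 ≤ 2 * (out Q x).ncard)
    (hno : Disjoint (Rg Q T1) (Rg Q T2)) :
    AA Q δ k0 (T1 ∪ T2) = AA Q δ k0 T1 ∪ AA Q δ k0 T2 := by
  ext p
  constructor
  · intro h
    have h1 := AA_Rg hδ hk hQ h
    rw [Rg_union] at h1
    rcases h1 with h1 | h1
    · left
      show 5 * leak Q δ T1 p ≤ k0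
      rw [← leak_union hno h1]
      exact h
    · right
      show 5 * leak Q δ T2 p ≤ k0
      rw [← leak_union' hno h1]
      exact h
  · rintro (h | h)
    · show 5 * leak Q δ (T1 ∪ T2) p ≤ k0
      rw [leak_union hno (AA_Rg hδ hk hQ h)]
      exact h
    · show 5 * leak Q δ (T1 ∪ T2) p ≤ k0
      rw [leak_union' hno (AA_Rg hδ hk hQ h)]
      exact h

omit [Fintype V] in
/-- sets over disjoint regions are disjoint -/
theorem disj_of_Rg {R1 R2 : Set V} (hno : Disjoint R1 R2) {A B : Set (V × Lab)}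
    (hA : ∀ p ∈ A, p.1 ∈ R1) (hB : ∀ p ∈ B, p.1 ∈ R2) : Disjoint A B :=
  Set.disjoint_left.mpr fun p h1 h2 => Set.disjoint_left.mp hno (hA p h1) (hB p h2)

theorem slk_union (hno : Disjoint (Rg Q T1) (Rg Q T2)) {A A1 A2 : Set (V × Lab)}
    (hA : A = A1 ∪ A2) (h1 : ∀ p ∈ A1, p.1 ∈ Rg Q T1) (h2 : ∀ p ∈ A2, p.1 ∈ Rg Q T2) :
    slk Q δ (T1 ∪ T2) A = slk Q δ T1 A1 + slk Q δ T2 A2 := by
  unfold slk
  rw [← Finset.sum_add_distrib]
  refine Finset.sum_congr rfl fun p _ => ?_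
  have hd := disj_of_Rg hno h1 h2
  by_cases hp1 : p ∈ A1
  · have hp2 : p ∉ A2 := Set.disjoint_left.mp hd hp1
    have hp : p ∈ A := hA ▸ Or.inl hp1
    rw [Set.indicator_of_mem hp, Set.indicator_of_mem hp1, Set.indicator_of_notMem hp2, add_zero,
      leak_union hno (h1 p hp1)]
  · by_cases hp2 : p ∈ A2
    · have hp : p ∈ A := hA ▸ Or.inr hp2
      rw [Set.indicator_of_mem hp, Set.indicator_of_notMem hp1, Set.indicator_of_mem hp2, zero_add,
        leak_union' hno (h2 p hp2)]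
    · have hp : p ∉ A := by
        rw [hA]
        rintro (h | h)
        · exact hp1 h
        · exact hp2 h
      rw [Set.indicator_of_notMem hp, Set.indicator_of_notMem hp1, Set.indicator_of_notMem hp2,
        add_zero]

theorem part_union {R1 R2 : Set V} (hno : Disjoint R1 R2) {A A1 A2 : Set (V × Lab)}
    (hA : A = A1 ∪ A2) (h1 : ∀ p ∈ A1, p.1 ∈ R1) (h2 : ∀ p ∈ A2, p.1 ∈ R2) :
    part A = part A1 + part A2 := by
  unfold part
  apply nc_union
  · ext x
    constructor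
    · rintro ⟨⟨i, hi⟩, j, hj⟩
      rw [hA] at hi hj
      rcases hi with hi | hi
      · exact Or.inl ⟨⟨i, hi⟩, j, fun h => hj (Or.inl h)⟩
      · exact Or.inr ⟨⟨i, hi⟩, j, fun h => hj (Or.inr h)⟩
    · rintro (⟨⟨i, hi⟩, j, hj⟩ | ⟨⟨i, hi⟩, j, hj⟩)
      · refine ⟨⟨i, hA ▸ Or.inl hi⟩, j, ?_⟩
        rw [hA]
        rintro (h | h)
        · exact hj h
        · have a1 : x ∈ R1 := h1 (x, i) hi
          have a2 : x ∈ R2 := h2 (x, j) h
          exact Set.disjoint_left.mp hno a1 a2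
      · refine ⟨⟨i, hA ▸ Or.inr hi⟩, j, ?_⟩
        rw [hA]
        rintro (h | h)
        · have a1 : x ∈ R1 := h1 (x, j) h
          have a2 : x ∈ R2 := h2 (x, i) hi
          exact Set.disjoint_left.mp hno a1 a2
        · exact hj h
  · rw [Set.disjoint_left]
    rintro x ⟨⟨i, hi⟩, _⟩ ⟨⟨j, hj⟩, _⟩
    have a1 : x ∈ R1 := h1 (x, i) hi
    have a2 : x ∈ R2 := h2 (x, j) hj
    exact Set.disjoint_left.mp hno a1 a2

omit [Fintype V] in
theorem sdiff_union {R1 R2 : Set V} (hno : Disjoint R1 R2) {A A1 A2 B B1 B2 : Set (V × Lab)}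
    (hA : A = A1 ∪ A2) (hB : B = B1 ∪ B2) (h1 : ∀ p ∈ A1, p.1 ∈ R1) (h2 : ∀ p ∈ A2, p.1 ∈ R2)
    (h3 : ∀ p ∈ B1, p.1 ∈ R1) (h4 : ∀ p ∈ B2, p.1 ∈ R2) :
    A \ B = (A1 \ B1) ∪ (A2 \ B2) := by
  subst hA hB
  ext p
  simp only [Set.mem_sdiff, Set.mem_union, not_or]
  constructor
  · rintro ⟨h | h, h5, h6⟩
    · exact Or.inl ⟨h, h5⟩
    · exact Or.inr ⟨h, h6⟩
  · rintro (⟨h, h5⟩ | ⟨h, h5⟩)
    · exact ⟨Or.inl h, h5, fun h6 => Set.disjoint_left.mp hno (h1 p h) (h4 p h6)⟩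
    · exact ⟨Or.inr h, fun h6 => Set.disjoint_left.mp hno (h3 p h6) (h2 p h), h5⟩

/-- additivity of the conditions -/
theorem nc_add (hδ : δ = 1 ∨ δ = -1) (hk : 1 ≤ k0) (hQ : ∀ x, k0 ≤ 2 * (out Q x).ncard)
    (hno : Disjoint (Rg Q T1) (Rg Q T2)) (hT : Disjoint T1 T2) {T01 T02 : Set (V × Lab)}
    (hs1 : T01 ⊆ T1) (hs2 : T02 ⊆ T2) {r β : ℝ} {L Et Eh : Set (V × Lab)}
    (N1 : NC Q δ k0 r β L Et Eh T01 T1) (N2 : NC Q δ k0 r β L Et Eh T02 T2) :
    NC Q δ k0 r β L Et Eh (T01 ∪ T02) (T1 ∪ T2) := by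
  have gS1 : ∀ p ∈ SS Q δ T1, p.1 ∈ Rg Q T1 := fun p h => SS_Rg h
  have gS2 : ∀ p ∈ SS Q δ T2, p.1 ∈ Rg Q T2 := fun p h => SS_Rg h
  have gA1 : ∀ p ∈ AA Q δ k0 T1, p.1 ∈ Rg Q T1 := fun p h => AA_Rg hδ hk hQ h
  have gA2 : ∀ p ∈ AA Q δ k0 T2, p.1 ∈ Rg Q T2 := fun p h => AA_Rg hδ hk hQ h
  have gS01 : ∀ p ∈ SS Q δ T01, p.1 ∈ Rg Q T1 := fun p h => gS1 p (SS_mono hs1 h)
  have gS02 : ∀ p ∈ SS Q δ T02, p.1 ∈ Rg Q T2 := fun p h => gS2 p (SS_mono hs2 h)
  have eS := SS_union Q δ T1 T2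
  have eS0 := SS_union Q δ T01 T02
  have eA : AA Q δ k0 (T1 ∪ T2) = AA Q δ k0 T1 ∪ AA Q δ k0 T2 := AA_union hδ hk hQ hno
  have dS := disj_of_Rg hno gS1 gS2
  have dA := disj_of_Rg hno gA1 gA2
  have e0 := sdiff_union hno eS eS0 gS1 gS2 gS01 gS02
  have e1 := sdiff_union hno eS eA gS1 gS2 gA1 gA2
  have e2 := sdiff_union hno eA eS gA1 gA2 gS1 gS2
  have d0 : Disjoint (SS Q δ T1 \ SS Q δ T01) (SS Q δ T2 \ SS Q δ T02) :=
    dS.mono Set.sdiff_subset Set.sdiff_subset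
  have d1 : Disjoint (SS Q δ T1 \ AA Q δ k0 T1) (SS Q δ T2 \ AA Q δ k0 T2) :=
    dS.mono Set.sdiff_subset Set.sdiff_subset
  have d2 : Disjoint (AA Q δ k0 T1 \ SS Q δ T1) (AA Q δ k0 T2 \ SS Q δ T2) :=
    dA.mono Set.sdiff_subset Set.sdiff_subset
  have cT : (T1 ∪ T2).ncard = T1.ncard + T2.ncard := nc_union rfl hT
  have eLA : L ∩ AA Q δ k0 (T1 ∪ T2) = (L ∩ AA Q δ k0 T1) ∪ (L ∩ AA Q δ k0 T2) := by
    rw [eA, Set.inter_union_distrib_left]
  have s1 : slk Q δ (T1 ∪ T2) (AA Q δ k0 (T1 ∪ T2)) =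
      slk Q δ T1 (AA Q δ k0 T1) + slk Q δ T2 (AA Q δ k0 T2) := slk_union hno eA gA1 gA2
  have s2 : slk Q δ (T1 ∪ T2) (L ∩ AA Q δ k0 (T1 ∪ T2)) =
      slk Q δ T1 (L ∩ AA Q δ k0 T1) + slk Q δ T2 (L ∩ AA Q δ k0 T2) :=
    slk_union hno eLA (fun p h => gA1 p h.2) (fun p h => gA2 p h.2)
  have pA := part_union hno eA gA1 gA2
  constructor
  · have h1 := N1.n0
    have h2 := N2.n0
    rw [nc_union e0 d0, nc_inter e0 d0, cT]
    push_cast
    linarith
  · have h1 := N1.n1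
    have h2 := N2.n1
    rw [nc_union e1 d1, nc_inter e1 d1, cT]
    push_cast
    linarith
  · have h1 := N1.n2
    have h2 := N2.n2
    rw [nc_union e2 d2, nc_inter e2 d2, cT]
    push_cast
    linarith
  · have h1 := N1.n3
    have h2 := N2.n3
    rw [s1, s2, cT]
    push_cast
    linarith
  · have h1 := N1.n4
    have h2 := N2.n4
    rw [nc_inter eA dA, nc_inter eS dS, nc_union e2 d2, nc_union e1 d1, pA, cT]
    push_cast
    linarith
  · have h1 := N1.n5
    have h2 := N2.n5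
    rw [nc_union eA dA, nc_inter eA dA, cT]
    push_cast
    linarith

end two

theorem nc_empty {Q : Set (V × V)} {δ : Lab} {k0 : ℕ} (hδ : δ = 1 ∨ δ = -1) (hk : 1 ≤ k0)
    (hQ : ∀ x, k0 ≤ 2 * (out Q x).ncard) {r β : ℝ} {L Et Eh : Set (V × Lab)} :
    NC Q δ k0 r β L Et Eh ∅ ∅ := by
  have hA : AA Q δ k0 ∅ = ∅ := by
    ext p
    constructor
    · intro h
      obtain ⟨t, ht, _⟩ := AA_Rg hδ hk hQ h
      exact ht
    · intro h
      exact absurd h (Set.notMem_empty p)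
  have hs : ∀ T, slk Q δ T ∅ = 0 := by
    intro T
    unfold slk
    simp
  have hp : part (∅ : Set (V × Lab)) = 0 := by
    unfold part
    simp
  constructor <;> simp [hA, hs, hp]

theorem add_stmt : AddStmt := by
  intro V _ _ Q δ k0 r β L Et Eh hδ hk hQ hN
  classical
  have key : ∀ n : ℕ, ∀ T : Finset (V × Lab), T.card = n → ∀ T0 : Set (V × Lab), T0 ⊆ T →
      NC Q δ k0 r β L Et Eh T0 T := by
    intro n
    induction n using Nat.strong_induction_on with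
    | _ n ih =>
      intro T hT T0 hT0
      rcases T.eq_empty_or_nonempty with rfl | ⟨t, ht⟩
      · have h0 : T0 = ∅ := by
          rw [Finset.coe_empty] at hT0
          exact Set.subset_eq_empty hT0 rfl
        rw [h0, Finset.coe_empty]
        exact nc_empty hδ hk hQ
      · -- a maximal connected subset containing `t`
        let F : Finset (Finset (V × Lab)) :=
          T.powerset.filter fun C => t ∈ C ∧ Bld (gam Q) C
        have hF : F.Nonempty := ⟨{t}, by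
          simp only [F, Finset.mem_filter, Finset.mem_powerset, Finset.singleton_subset_iff]
          exact ⟨ht, Finset.mem_singleton_self t, Bld.one t⟩⟩
        obtain ⟨C, hC, hmax⟩ := F.exists_max_image Finset.card hF
        simp only [F, Finset.mem_filter, Finset.mem_powerset] at hC hmax
        obtain ⟨hCT, htC, hCb⟩ := hC
        let T' := T \ C
        have hcard : T'.card < n := by
          rw [← hT]
          apply Finset.card_lt_card
          refine ⟨Finset.sdiff_subset, fun h => ?_⟩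
          exact (Finset.mem_sdiff.mp (h ht)).2 htC
        have hng : ∀ p ∈ C, ∀ p' ∈ T', ¬ gam Q p p' := by
          intro p hp p' hp' hg
          have hp'2 := Finset.mem_sdiff.mp hp'
          have h1 := hmax (insert p' C) ⟨Finset.insert_subset hp'2.1 hCT,
            Finset.mem_insert_of_mem htC, Bld.add C p p' hCb hp hg⟩
          rw [Finset.card_insert_of_notMem hp'2.2] at h1
          omega
        have hno : Disjoint (Rg Q (C : Set (V × Lab))) (Rg Q (T' : Set (V × Lab))) := by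
          rw [Set.disjoint_left]
          rintro v ⟨p, hp, h1⟩ ⟨p', hp', h2⟩
          exact hng p hp p' hp' ⟨v, h1, h2⟩
        have hdj : Disjoint (C : Set (V × Lab)) (T' : Set (V × Lab)) := by
          rw [Set.disjoint_left]
          intro p hp hp'
          exact (Finset.mem_sdiff.mp hp').2 hp
        have hTu : (T : Set (V × Lab)) = (C : Set (V × Lab)) ∪ (T' : Set (V × Lab)) := by
          ext p
          simp only [Set.mem_union, Finset.mem_coe, T', Finset.mem_sdiff]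
          constructor
          · intro h
            by_cases hpC : p ∈ C
            · exact Or.inl hpC
            · exact Or.inr ⟨h, hpC⟩
          · rintro (h | h)
            · exact hCT h
            · exact h.1
        have hT0u : T0 = (T0 ∩ C) ∪ (T0 ∩ T') := by
          rw [← Set.inter_union_distrib_left, ← hTu]
          exact (Set.inter_eq_left.mpr hT0).symm
        rw [hT0u, hTu]
        exact nc_add hδ hk hQ hno hdj Set.inter_subset_right Set.inter_subset_right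
          (hN C hCb _ Set.inter_subset_right)
          (ih T'.card hcard T' rfl _ Set.inter_subset_right)
  intro T0 T hT0
  have hT : ((Set.toFinite T).toFinset : Set (V × Lab)) = T := Set.Finite.coe_toFinset _
  have h := key _ (Set.toFinite T).toFinset rfl T0 (by rw [hT]; exact hT0)
  rwa [hT] at h

end Pool.Agent.LPY.H54
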