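import Pool.Agent.Helper48_LPY.Stmts
import Pool.Agent.Helper48_LPY.Basic

/-!
# LPY, module BLK: one block of classes
-/

set_option autoImplicit false

namespace Pool.Agent.LPY.H54

open Pool.Agent.LAX Pool.Agent.LPY

variable {V : Type}

/-- What is required of the new class. -/
structure NewC {σ : Equiv.Perm V} {a : ℕ} (B : BS σ (2 ^ a)) (ω : V → Om a) (K R : Set (V × V))
    (Zp Zm : Set V) (X : Set (V × V)) : Prop where
  pi : PI X
  cw : CW X (2 ^ (a + 1))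
  sub : X ⊆ K ∪ R
  dm : ∀ x ∈ dom K, x ∉ dom X → x ∈ Zp ∧ x ∈ pk B ω
  rn : ∀ y ∈ ran K, y ∉ ran X → y ∈ Zm ∧ σ⁻¹ y ∈ pk B ω
  nw : ∀ p ∈ X, p ∉ K → p.1 ∈ pk B ω ∧ σ⁻¹ p.2 ∈ pk B ω

/-- few used arcs leave a vertex -/
theorem us_out {S : Set ℕ} (hS : S.Finite) {X Y : ℕ → Set (V × V)} {P : ℕ → Set V}
    (hX : ∀ c ∈ S, PI (X c)) (hP : ∀ c ∈ S, ∀ p ∈ X c, p ∉ Y c → p.1 ∈ P c) (x : V) :
    (out {p | ∃ c ∈ S, p ∈ X c ∧ p ∉ Y c} x).ncard ≤ {c | c ∈ S ∧ x ∈ P c}.ncard := by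
  classical
  have h : ∀ y : V, ∃ c : ℕ, (∃ c ∈ S, (x, y) ∈ X c ∧ (x, y) ∉ Y c) →
      c ∈ S ∧ (x, y) ∈ X c ∧ (x, y) ∉ Y c := by
    intro y
    by_cases hy : ∃ c ∈ S, (x, y) ∈ X c ∧ (x, y) ∉ Y c
    · obtain ⟨c, h1, h2⟩ := hy
      exact ⟨c, fun _ => ⟨h1, h2⟩⟩
    · exact ⟨0, fun h => absurd h hy⟩
  choose f hf using h
  refine Set.ncard_le_ncard_of_injOn f ?_ ?_ (hS.subset fun c hc => hc.1)
  · intro y hy
    obtain ⟨h1, h2, h3⟩ := hf y hy
    exact ⟨h1, hP _ h1 _ h2 h3⟩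
  · intro y hy y' hy' he
    obtain ⟨h1, h2, _⟩ := hf y hy
    obtain ⟨_, h2', _⟩ := hf y' hy'
    rw [← he] at h2'
    exact (hX _ h1).1 x y y' h2 h2'

/-- few used arcs enter a vertex -/
theorem us_inn {S : Set ℕ} (hS : S.Finite) {X Y : ℕ → Set (V × V)} {P : ℕ → Set V}
    (hX : ∀ c ∈ S, PI (X c)) (hP : ∀ c ∈ S, ∀ p ∈ X c, p ∉ Y c → p.2 ∈ P c) (x : V) :
    (inn {p | ∃ c ∈ S, p ∈ X c ∧ p ∉ Y c} x).ncard ≤ {c | c ∈ S ∧ x ∈ P c}.ncard := by
  classical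
  have h : ∀ y : V, ∃ c : ℕ, (∃ c ∈ S, (y, x) ∈ X c ∧ (y, x) ∉ Y c) →
      c ∈ S ∧ (y, x) ∈ X c ∧ (y, x) ∉ Y c := by
    intro y
    by_cases hy : ∃ c ∈ S, (y, x) ∈ X c ∧ (y, x) ∉ Y c
    · obtain ⟨c, h1, h2⟩ := hy
      exact ⟨c, fun _ => ⟨h1, h2⟩⟩
    · exact ⟨0, fun h => absurd h hy⟩
  choose f hf using h
  refine Set.ncard_le_ncard_of_injOn f ?_ ?_ (hS.subset fun c hc => hc.1)
  · intro y hy
    obtain ⟨h1, h2, h3⟩ := hf y hy
    exact ⟨h1, hP _ h1 _ h2 h3⟩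
  · intro y hy y' hy' he
    obtain ⟨h1, h2, _⟩ := hf y hy
    obtain ⟨_, h2', _⟩ := hf y' hy'
    rw [← he] at h2'
    exact (hX _ h1).2 y y' x h2 h2'

theorem log_le {k l k0 : ℕ} (hk : 17 * (k : ℝ) ^ 2 ≤ Real.exp ((2 : ℝ) ^ l)) (hk0 : 1 ≤ k0)
    (hk0k : k0 ≤ k) : 2 + Real.log (2 * k0) ≤ (2 : ℝ) ^ l := by
  have h0 : (1 : ℝ) ≤ k0 := by exact_mod_cast hk0
  have h1 : (k0 : ℝ) ≤ k := by exact_mod_cast hk0k
  have h2 : Real.exp 2 ≤ 8 := by
    have h3 := Real.exp_one_lt_d9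
    have h4 : Real.exp 2 = Real.exp 1 * Real.exp 1 := by rw [← Real.exp_add]; norm_num
    rw [h4]
    have h5 := Real.exp_pos 1
    nlinarith
  have h6 : Real.log (Real.exp 2 * (2 * k0)) = 2 + Real.log (2 * k0) := by
    rw [Real.log_mul (Real.exp_pos 2).ne' (by positivity), Real.log_exp]
  have h7 : Real.log (Real.exp 2 * (2 * k0)) ≤ Real.log (Real.exp ((2 : ℝ) ^ l)) := by
    apply Real.log_le_log (by positivity)
    calc Real.exp 2 * (2 * k0) ≤ 8 * (2 * k) := by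
          apply mul_le_mul h2 (by linarith) (by positivity) (by norm_num)
      _ ≤ 17 * (k : ℝ) ^ 2 := by nlinarith
      _ ≤ _ := hk
  rwa [h6, Real.log_exp] at h7

/-- one class -/
theorem blk_one (hM : MatStmt) (hR : RlkStmt) [Fintype V] (σ : Equiv.Perm V) (a : ℕ)
    (B : BS σ (2 ^ a)) (ω : V → Om a) (K R Us : Set (V × V)) (Zp Zm : Set V) (k0 w Hb : ℕ)
    (lam β s1 s2 : ℝ) (h1 : 10 ≤ a) (h2 : Cyc σ (2 ^ a)) (hK : ∀ p ∈ K, σ p.1 = p.2)
    (h3 : 1 ≤ k0) (h4 : 20 * w ≤ k0) (h5 : 2 + Real.log (2 * k0) ≤ lam) (h6 : 0 < β)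
    (h7 : 0 < s2) (h8 : (Hb : ℝ) < s1)
    (h9 : ∀ x, k0 ≤ (out R x).ncard + w ∧ (out R x).ncard ≤ k0 ∧ k0 ≤ (inn R x).ncard + w ∧
      (inn R x).ncard ≤ k0)
    (h10 : ∀ x, (out Us x).ncard ≤ Hb ∧ (inn Us x).ncard ≤ Hb)
    (h11 : GoodC B ω R Zp Zm k0 β s1 s2) (h12 : HC k0 w Hb lam (rr a) β (s1 - Hb) s2) :
    ∃ X, NewC B ω K R Zp Zm X ∧ Disjoint (X \ K) Us := by
  obtain ⟨M, m1, m2, m3, m4⟩ := hM V σ a B ω R Us Zp Zm k0 w Hb lam β s1 s2 h1 h2 h3 h4 h5 h6 h7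
    h8 h9 h10 h11 h12
  obtain ⟨r1, r2, r3, r4, r5, r6⟩ := hR V σ a B ω K (R \ Us) M Zp Zm h1 h2 hK m1 m2 m3 m4
  refine ⟨nk B ω K M, ⟨r1, r3, fun p hp => ?_, r4, r5, r6⟩, ?_⟩
  · rcases r2 hp with h | h
    · exact Or.inl h
    · exact Or.inr h.1
  · rw [Set.disjoint_left]
    rintro p ⟨hp, hpK⟩ hU
    rcases r2 hp with h | h
    · exact hpK h
    · exact h.2 hU

theorem blk (hB : BstStmt) (hS : SmpStmt) (hM : MatStmt) (hR : RlkStmt) : BlkStmt := by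
  intro V _ _ k l a C σ R K Zp Zm k0 w ζ hk ha hal hC hσ hKσ hk0 hk0k hw hdeg hζ hrζ hHC
  have hB' : ∀ c, Nonempty (BS (σ c) (2 ^ a)) := fun c =>
    hB V (σ c) (2 ^ a) Nat.one_le_two_pow (hσ c)
  let B : (c : ℕ) → BS (σ c) (2 ^ a) := fun c => Classical.choice (hB' c)
  have hdeg2 : ∀ x, k0 ≤ 2 * (out R x).ncard ∧ (out R x).ncard ≤ k0 ∧
      k0 ≤ 2 * (inn R x).ncard ∧ (inn R x).ncard ≤ k0 := by
    intro x
    obtain ⟨d1, d2, d3, d4⟩ := hdeg x
    refine ⟨by omega, d2, by omega, d4⟩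
  obtain ⟨ω, hG, hP⟩ := hS V k l a C σ B R Zp Zm k0 ζ hk ha hal hC hσ hk0 hk0k hdeg2 hζ hrζ
  have hlog := log_le hk hk0 hk0k
  have hrr := rr_pos a
  have hk0' : (1 : ℝ) ≤ k0 := by exact_mod_cast hk0
  have hl1 : (1 : ℝ) ≤ (2 : ℝ) ^ l := one_le_pow₀ (by norm_num)
  have hHb : ((2 ^ (l + 4) : ℕ) : ℝ) = (2 : ℝ) ^ (l + 4) := by push_cast; rfl
  have hHs : ((2 ^ (l + 4) : ℕ) : ℝ) < 9 / 5 * rr a * ζ := by
    rw [hHb, pow_add]
    nlinarith
  have key : ∀ n, ∃ K' : ℕ → Set (V × V),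
      (∀ c ∈ C, c < n → NewC (B c) (ω c) (K c) R Zp Zm (K' c)) ∧
      ∀ c ∈ C, ∀ d ∈ C, c < n → d < n → c ≠ d → Disjoint (K' c \ K c) (K' d \ K d) := by
    intro n
    induction n with
    | zero =>
      exact ⟨K, fun c _ h => absurd h (Nat.not_lt_zero c),
        fun c _ _ _ h => absurd h (Nat.not_lt_zero c)⟩
    | succ n ih =>
      obtain ⟨K', h1, h2⟩ := ih
      by_cases hn : n ∈ C
      · have hfin : {c | c ∈ C ∧ c < n}.Finite := C.finite_toSet.subset fun c hc => hc.1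
        have hUs : ∀ x,
            (out {p | ∃ c ∈ {c | c ∈ C ∧ c < n}, p ∈ K' c ∧ p ∉ K c} x).ncard ≤ 2 ^ (l + 4) ∧
            (inn {p | ∃ c ∈ {c | c ∈ C ∧ c < n}, p ∈ K' c ∧ p ∉ K c} x).ncard ≤
              2 ^ (l + 4) := by
          intro x
          constructor
          · refine (us_out hfin (fun c hc => (h1 c hc.1 hc.2).pi)
              (fun c hc p hp hp' => ((h1 c hc.1 hc.2).nw p hp hp').1) x).trans
              (le_trans (Set.ncard_le_ncard ?_ ?_) (hP x).1)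
            · exact fun c hc => ⟨hc.1.1, hc.2⟩
            · exact C.finite_toSet.subset fun c hc => hc.1
          · refine (us_inn hfin (P := fun c => {y | (σ c)⁻¹ y ∈ pk (B c) (ω c)})
              (fun c hc => (h1 c hc.1 hc.2).pi)
              (fun c hc p hp hp' => ((h1 c hc.1 hc.2).nw p hp hp').2) x).trans
              (le_trans (Set.ncard_le_ncard ?_ ?_) (hP x).2)
            · exact fun c hc => ⟨hc.1.1, hc.2⟩
            · exact C.finite_toSet.subset fun c hc => hc.1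
        obtain ⟨X, hX, hXd⟩ := blk_one hM hR (σ n) a (B n) (ω n) (K n) R
          {p | ∃ c ∈ {c | c ∈ C ∧ c < n}, p ∈ K' c ∧ p ∉ K c} Zp Zm k0 w (2 ^ (l + 4)) (2 ^ l)
          (2 ^ 24 * 2 ^ l) (9 / 5 * rr a * ζ) (4 * k0 * rr a) (by omega) (hσ n) (hKσ n) hk0 hw
          hlog (by positivity) (by positivity) hHs hdeg hUs (hG n hn) (by rw [hHb]; exact hHC)
        refine ⟨Function.update K' n X, fun c hc hcn => ?_, fun c hc d hd hcn hdn hcd => ?_⟩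
        · by_cases hc' : c = n
          · subst hc'
            rw [Function.update_self]
            exact hX
          · rw [Function.update_of_ne hc']
            exact h1 c hc (by omega)
        · have hsub : ∀ c ∈ C, c < n → Disjoint (X \ K n) (K' c \ K c) := by
            intro c hc hcn
            refine hXd.mono_right ?_
            rintro p ⟨hp, hp'⟩
            exact ⟨c, ⟨hc, hcn⟩, hp, hp'⟩
          by_cases hc' : c = n
          · have hd' : d ≠ n := fun h => hcd (hc'.trans h.symm)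
            rw [hc', Function.update_self, Function.update_of_ne hd']
            exact hsub d hd (by omega)
          · by_cases hd' : d = n
            · rw [hd', Function.update_self, Function.update_of_ne hc']
              exact (hsub c hc (by omega)).symm
            · rw [Function.update_of_ne hc', Function.update_of_ne hd']
              exact h2 c hc d hd (by omega) (by omega) hcd
      · refine ⟨K', fun c hc hcn => h1 c hc ?_, fun c hc d hd hcn hdn hcd => h2 c hc d hd ?_ ?_ hcd⟩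
        · rcases Nat.lt_succ_iff_lt_or_eq.mp hcn with h | h
          · exact h
          · exact absurd (h ▸ hc) hn
        · rcases Nat.lt_succ_iff_lt_or_eq.mp hcn with h | h
          · exact h
          · exact absurd (h ▸ hc) hn
        · rcases Nat.lt_succ_iff_lt_or_eq.mp hdn with h | h
          · exact h
          · exact absurd (h ▸ hd) hn
  obtain ⟨K', h1, h2⟩ := key (C.sup id + 1)
  have hlt : ∀ c ∈ C, c < C.sup id + 1 := fun c hc =>
    Nat.lt_succ_of_le (Finset.le_sup (f := id) hc)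
  refine ⟨K', fun c hc => ?_, fun c hc d hd hcd => h2 c hc d hd (hlt c hc) (hlt d hd) hcd,
    fun v => ⟨?_, ?_⟩⟩
  · have h := h1 c hc (hlt c hc)
    refine ⟨h.pi, h.cw, h.sub, fun v hv hvK => ?_, fun v hv hvK => ?_⟩
    · by_contra hne
      exact hv (h.dm v hvK hne).1
    · by_contra hne
      exact hv (h.rn v hvK hne).1
  · refine le_trans (Set.ncard_le_ncard ?_ ?_) (hP v).1
    · exact fun c hc => ⟨hc.1, ((h1 c hc.1 (hlt c hc.1)).dm v hc.2.1 hc.2.2).2⟩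
    · exact C.finite_toSet.subset fun c hc => hc.1
  · refine le_trans (Set.ncard_le_ncard ?_ ?_) (hP v).2
    · exact fun c hc => ⟨hc.1, ((h1 c hc.1 (hlt c hc.1)).rn v hc.2.1 hc.2.2).2⟩
    · exact C.finite_toSet.subset fun c hc => hc.1

end Pool.Agent.LPY.H54
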