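import Pool.Agent.Helper48_LPY.Stmts

/-!
# LPY, module STP: induction over the blocks of classes
-/

set_option autoImplicit false

namespace Pool.Agent.LPY.H54

open Pool.Agent.LAX Pool.Agent.LPY

theorem stp (hS1 : Stp1Stmt) : StpStmt := by
  intro V _ E k l a h q W σ K hN hE hσ hK hS
  classical
  have := Fintype.ofFinite V
  obtain ⟨m, hm⟩ := hN.q1
  have key : ∀ n, n ≤ m → ∃ (K1 : ℕ → Set (V × V)) (cp cm : V → ℕ),
      (∀ c < q, K1 c ⊆ E ∧ PI (K1 c)) ∧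
      (∀ c < n * 2 ^ (a + l - 6), CW (K1 c) (2 ^ (a + 1))) ∧
      (∀ c, n * 2 ^ (a + l - 6) ≤ c → K1 c = K c) ∧
      (∀ c < q, ∀ d < q, c ≠ d → Disjoint (K1 c) (K1 d)) ∧
      (∀ v, {c | c < q ∧ v ∉ dom (K1 c)}.ncard ≤ W + 2 ^ (l + 4) * cp v ∧
        {c | c < q ∧ v ∉ ran (K1 c)}.ncard ≤ W + 2 ^ (l + 4) * cm v) ∧
      (∀ v, cp v ≤ 2 ^ (l + 60) ∧ cm v ≤ 2 ^ (l + 60)) ∧
      ∀ c < q, ∀ x,
        (2 : ℝ) ^ h * ∑ v, {v | (x, σ c v) ∈ E}.indicator (fun v => (cp v : ℝ)) v ≤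
          n * (2 * k) ∧
        (2 : ℝ) ^ h * ∑ v, {v | ((σ c)⁻¹ v, x) ∈ E}.indicator (fun v => (cm v : ℝ)) v ≤
          n * (2 * k) := by
    intro n
    induction n with
    | zero =>
      intro _
      refine ⟨K, fun _ => 0, fun _ => 0, fun c hc => ⟨hS.sub c hc, hS.pi c hc⟩,
        fun c hc => ?_, fun _ _ => rfl, hS.disj, fun v => ⟨?_, ?_⟩, fun v => ⟨?_, ?_⟩,
        fun c _ x => ⟨?_, ?_⟩⟩
      · rw [zero_mul] at hc
        exact absurd hc (Nat.not_lt_zero c)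
      · simpa using hS.mo v
      · simpa using hS.mi v
      · exact Nat.zero_le _
      · exact Nat.zero_le _
      · simp
      · simp
    | succ n ih =>
      intro hn
      obtain ⟨K1, cp, cm, i1, i2, i3, i4, i5, i6, i7⟩ := ih (by omega)
      have hq : (n + 1) * 2 ^ (a + l - 6) ≤ q := by
        rw [hm, mul_comm (2 ^ (a + l - 6)) m]
        exact Nat.mul_le_mul_right _ hn
      exact hS1 V E k l a h q W n σ K K1 cp cm hN hE hσ hK hq i1 i2 i3 i4 i5 i6 i7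
  obtain ⟨K1, cp, cm, i1, i2, i3, i4, i5, i6, i7⟩ := key m le_rfl
  have hmq : m * 2 ^ (a + l - 6) = q := by rw [hm, mul_comm]
  have hpow : 2 ^ (l + 4) * 2 ^ (l + 60) = 2 ^ (2 * l + 64) := by
    rw [← pow_add]
    congr 1
    omega
  refine ⟨K1, fun c hc => (i1 c hc).1, fun c hc => (i1 c hc).2, fun c hc => i2 c (by omega), i4,
    fun v => ?_, fun v => ?_⟩
  · refine (i5 v).1.trans ?_
    rw [← hpow]
    exact Nat.add_le_add_left (Nat.mul_le_mul_left _ (i6 v).1) _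
  · refine (i5 v).2.trans ?_
    rw [← hpow]
    exact Nat.add_le_add_left (Nat.mul_le_mul_left _ (i6 v).2) _

end Pool.Agent.LPY.H54
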