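import Pool.Agent.Helper48_LPY.Stmts

/-!
# LPY, module ZSL: the eligible set of a block
-/

set_option autoImplicit false

namespace Pool.Agent.LPY.H54

open Pool.Agent.LAX Pool.Agent.LPY

theorem zsl (hIP : IPStmt) : ZslStmt := by
  intro V J _ _ N U k l h hk hkh hN1 hN2
  have hk1 : 1 ≤ k := le_trans Nat.one_le_two_pow hkh
  have hkR : (1 : ℝ) ≤ k := by exact_mod_cast hk1
  have hkk : k ≤ k ^ 2 := by nlinarith
  set lam : ℝ := (2 : ℝ) ^ l with hlam
  have hlam0 : 0 < lam := by positivity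
  have he : 8 * ((k ^ 2 : ℕ) : ℝ) ^ 2 ≤ Real.exp (2 * lam) := by
    have h1 : Real.exp (2 * lam) = Real.exp lam * Real.exp lam := by
      rw [← Real.exp_add]
      congr 1
      ring
    rw [h1]
    push_cast
    have h2 := mul_le_mul hk hk (by positivity) (Real.exp_pos lam).le
    have h3 : (0 : ℝ) ≤ (k : ℝ) ^ 2 * (k : ℝ) ^ 2 := by positivity
    nlinarith
  obtain ⟨col, -, hcol⟩ := hIP V J (fun j => N j ∩ U) (k ^ 2) lam h hlam0 he
    (fun j => (Set.ncard_le_ncard Set.inter_subset_left (Set.toFinite _)).trans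
      ((hN1 j).trans hkk))
    (fun z => (Set.ncard_le_ncard (fun j hj => hj.1) (Set.toFinite _)).trans (hN2 z))
  refine ⟨{z | z ∈ U ∧ col z = 0}, fun z hz => hz.1, fun j => ?_⟩
  have hpow : (0 : ℝ) < 2 ^ h := by positivity
  obtain ⟨n1, n2⟩ := hcol j 0 (by positivity)
  have hset : (N j ∩ U) ∩ {z | col z = 0} = N j ∩ {z | z ∈ U ∧ col z = 0} := by
    ext z
    simp only [Set.mem_inter_iff]
    constructor
    · rintro ⟨⟨a1, a2⟩, a3⟩
      exact ⟨a1, a2, a3⟩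
    · rintro ⟨a1, a2, a3⟩
      exact ⟨⟨a1, a2⟩, a3⟩
  rw [hset] at n1 n2
  set Y : ℝ := ((N j ∩ {z | z ∈ U ∧ col z = 0}).ncard : ℝ) with hY
  have hY0 : 0 ≤ Y := Nat.cast_nonneg _
  set x : ℝ := (k : ℝ) / 2 ^ h with hx
  have hx0 : 0 < x := by positivity
  have hxl : 1024 * lam ≤ x := by
    rw [hx, le_div_iff₀ hpow]
    have h1 : (2 : ℝ) ^ (h + l + 10) ≤ k := by exact_mod_cast hkh
    calc 1024 * lam * 2 ^ h = 2 ^ (h + l + 10) := by rw [hlam]; ring
      _ ≤ k := h1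
  have hsl : √lam ≤ √x / 32 := by
    rw [le_div_iff₀ (by norm_num : (0:ℝ) < 32)]
    calc √lam * 32 = √(lam * 32 ^ 2) := by
          rw [Real.sqrt_mul hlam0.le, Real.sqrt_sq (by norm_num)]
      _ ≤ √x := Real.sqrt_le_sqrt (by linarith)
  have hsx : √x ^ 2 = x := Real.sq_sqrt hx0.le
  have hsx0 : 0 ≤ √x := Real.sqrt_nonneg _
  have hsY : √Y ^ 2 = Y := Real.sq_sqrt hY0
  have hsY0 : 0 ≤ √Y := Real.sqrt_nonneg _
  have hkx : (k : ℝ) = 2 ^ h * x := by rw [hx]; field_simp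
  constructor
  · have h1 : √(((N j ∩ U).ncard : ℝ) / 2 ^ h) ≤ √x := by
      apply Real.sqrt_le_sqrt
      rw [hx]
      apply div_le_div_of_nonneg_right _ hpow.le
      exact_mod_cast (Set.ncard_le_ncard Set.inter_subset_left (Set.toFinite _)).trans (hN1 j)
    have h2 : √Y ≤ 69 / 64 * √x := by linarith
    have h3 : Y ≤ 2 * x := by
      rw [← hsY]
      nlinarith
    calc (2 : ℝ) ^ h * Y ≤ 2 ^ h * (2 * x) := mul_le_mul_of_nonneg_left h3 hpow.le
      _ = 2 * k := by rw [hkx]; ring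
  · intro hj
    have hjR : (k : ℝ) ≤ 2 * ((N j ∩ U).ncard : ℝ) := by exact_mod_cast hj
    have h1 : 7 / 10 * √x ≤ √(((N j ∩ U).ncard : ℝ) / 2 ^ h) := by
      apply Real.le_sqrt_of_sq_le
      rw [mul_pow, hsx]
      have : x / 2 ≤ ((N j ∩ U).ncard : ℝ) / 2 ^ h := by
        rw [hx, div_div, mul_comm, ← div_div]
        apply div_le_div_of_nonneg_right _ hpow.le
        linarith
      nlinarith
    have h2 : 54 / 100 * √x ≤ √Y := by linarith
    have h3 : x / 4 ≤ Y := by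
      rw [← hsY]
      nlinarith
    calc (k : ℝ) = 2 ^ (h + 2) * (x / 4) := by rw [hkx]; ring
      _ ≤ 2 ^ (h + 2) * Y := mul_le_mul_of_nonneg_left h3 (by positivity)

end Pool.Agent.LPY.H54
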